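import Mathlib
import Pool.Agent.Helper43.UN.GoalsF

/-!
# Project UN, packet GNa: joining along the diagonal `i + j = e`
-/

set_option autoImplicit false

namespace Pool.Agent.Helper94.UN

open Finset
open Pool.Agent.Lead.Sh
open Pool.Agent.Helper43.UN

/-- exponents of the deformed matrix -/
def gx (e : ℕ) (R1 : Finset Row) (r : Row) (d : ℕ × ℕ) : ℕ :=
  if r ∈ R1 then e - (d.1 + d.2) else (d.1 + d.2) - e

/-- the deformed matrix -/
noncomputable def gM (e : ℕ) (R1 : Finset Row) (P1 P2 : ℕ → ℂ × ℂ) (r : Row)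
    (d : ℕ × ℕ) : Polynomial ℂ :=
  Polynomial.X ^ (gx e R1 r d) *
    Polynomial.C (if r ∈ R1 then E r.2 d (P1 r.1).1 (P1 r.1).2 else E r.2 d (P2 r.1).1 (P2 r.1).2)

lemma pow_bal (ε : ℂ) (hε : ε ≠ 0) (e n : ℕ) :
    ε ^ (e - n) = ε ^ (n - e) * (ε ^ e * ε⁻¹ ^ n) := by
  rcases le_total n e with h | h
  · rw [Nat.sub_eq_zero_of_le h, pow_zero, one_mul]
    obtain ⟨k, rfl⟩ := Nat.exists_eq_add_of_le h
    rw [Nat.add_sub_cancel_left, pow_add, inv_pow]
    have := pow_ne_zero n hε
    field_simp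
  · rw [Nat.sub_eq_zero_of_le h, pow_zero]
    obtain ⟨k, rfl⟩ := Nat.exists_eq_add_of_le h
    rw [Nat.add_sub_cancel_left, pow_add, inv_pow, inv_pow]
    have := pow_ne_zero e hε
    have := pow_ne_zero k hε
    field_simp

theorem goalGNa : GoalGNa := by
  intro D R1 R2 e P1 P2 hdisj h0
  have hR12 : ∀ r ∈ R2, r ∉ R1 := fun r hr hr' => hdisj r hr' r hr rfl
  obtain ⟨ε, hε, hinj⟩ := poly_inj
    (fun (r : ↥(R1 ∪ R2)) (d : ↥D) => gM e R1 P1 P2 r d) (by
      intro c hc
      set c2 : ℕ × ℕ → ℂ := fun d => if h : d ∈ D then c ⟨d, h⟩ else 0 with hc2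
      have hc2' : ∀ d : ↥D, c2 d = c d := by
        intro d; simp only [hc2]; rw [dif_pos d.2]
      have hsum : ∀ r ∈ R1 ∪ R2, ∑ d ∈ D, c2 d * (gM e R1 P1 P2 r d).eval 0 = 0 := by
        intro r hr
        refine Eq.trans ?_ (hc ⟨r, hr⟩)
        rw [← sum_coe_sort D]
        apply sum_congr rfl
        intro d _
        rw [hc2']
      have hz := h0 c2 (by
        intro r hr
        have h1 := hsum r (mem_union_left _ hr)
        rw [sum_filter]
        refine Eq.trans ?_ h1
        apply sum_congr rfl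
        intro d _
        unfold gM gx
        rw [if_pos hr, if_pos hr, Polynomial.eval_mul, Polynomial.eval_pow, Polynomial.eval_X,
          Polynomial.eval_C]
        split_ifs with h
        · rw [Nat.sub_eq_zero_of_le h, pow_zero, one_mul]
        · rw [zero_pow (by omega), zero_mul, mul_zero]) (by
        intro r hr
        have h1 := hsum r (mem_union_right _ hr)
        rw [sum_filter]
        refine Eq.trans ?_ h1
        apply sum_congr rfl
        intro d _
        unfold gM gx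
        rw [if_neg (hR12 r hr), if_neg (hR12 r hr), Polynomial.eval_mul, Polynomial.eval_pow,
          Polynomial.eval_X, Polynomial.eval_C]
        split_ifs with h
        · rw [Nat.sub_eq_zero_of_le h, pow_zero, one_mul]
        · rw [zero_pow (by omega), zero_mul, mul_zero])
      funext d
      rw [← hc2', Pi.zero_apply]
      exact hz d d.2)
  refine ⟨fun k => if k ∈ R1.image Prod.fst then (ε⁻¹ * (P1 k).1, ε⁻¹ * (P1 k).2) else P2 k, ?_⟩
  intro c hc d hd
  have key := hinj (fun d => c d * (ε ^ (((d : ℕ × ℕ).1 + (d : ℕ × ℕ).2) - e))⁻¹) ?_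
  · have := congrFun key ⟨d, hd⟩
    simp only [Pi.zero_apply] at this
    rcases mul_eq_zero.1 this with h | h
    · exact h
    · exact absurd h (inv_ne_zero (pow_ne_zero _ hε))
  · intro r
    have h3 := hc r r.2
    rw [sum_coe_sort D (fun d => c d * (ε ^ ((d.1 + d.2) - e))⁻¹ * (gM e R1 P1 P2 r d).eval ε)]
    by_cases hr1 : (r : Row) ∈ R1
    · have hk : (r : Row).1 ∈ R1.image Prod.fst := mem_image_of_mem _ hr1
      simp only [if_pos hk] at h3
      have h4 : (ε ^ e * ε⁻¹ ^ (wt (1, 1) (r : Row).2)) * (∑ d ∈ D, c d *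
        E (r : Row).2 d (ε⁻¹ * (P1 (r : Row).1).1) (ε⁻¹ * (P1 (r : Row).1).2)) = 0 := by
        rw [h3, mul_zero]
      rw [mul_sum] at h4
      refine Eq.trans ?_ h4
      apply sum_congr rfl
      intro d _
      have h5 := E_scale (1, 1) (r : Row).2 d (P1 (r : Row).1).1 (P1 (r : Row).1).2 ε⁻¹
      have h6 : wt (1, 1) d = d.1 + d.2 := by unfold wt; ring
      simp only [pow_one] at h5
      unfold gM gx
      rw [if_pos hr1, if_pos hr1, Polynomial.eval_mul, Polynomial.eval_pow, Polynomial.eval_X,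
        Polynomial.eval_C, pow_bal ε hε e (d.1 + d.2), ← h6]
      have h7 := pow_ne_zero (wt (1, 1) d - e) hε
      calc c d * (ε ^ (wt (1, 1) d - e))⁻¹ * (ε ^ (wt (1, 1) d - e) * (ε ^ e * ε⁻¹ ^ wt (1, 1) d) *
            E (r : Row).2 d (P1 (r : Row).1).1 (P1 (r : Row).1).2)
          = ((ε ^ (wt (1, 1) d - e))⁻¹ * ε ^ (wt (1, 1) d - e)) * (c d * ε ^ e *
            (ε⁻¹ ^ wt (1, 1) d * E (r : Row).2 d (P1 (r : Row).1).1 (P1 (r : Row).1).2)) := by
              ring
        _ = c d * ε ^ e *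
            (ε⁻¹ ^ wt (1, 1) d * E (r : Row).2 d (P1 (r : Row).1).1 (P1 (r : Row).1).2) := by
              rw [inv_mul_cancel₀ h7, one_mul]
        _ = _ := by rw [← h5]; ring
    · have hr2 : (r : Row) ∈ R2 := by
        rcases mem_union.1 r.2 with h | h
        · exact absurd h hr1
        · exact h
      have hk : (r : Row).1 ∉ R1.image Prod.fst := by
        intro h
        obtain ⟨r', hr', he⟩ := mem_image.1 h
        exact hdisj r' hr' r hr2 he
      simp only [if_neg hk] at h3
      refine Eq.trans ?_ h3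
      apply sum_congr rfl
      intro d _
      unfold gM gx
      rw [if_neg hr1, if_neg hr1, Polynomial.eval_mul, Polynomial.eval_pow, Polynomial.eval_X,
        Polynomial.eval_C]
      have h7 := pow_ne_zero ((d.1 + d.2) - e) hε
      calc c d * (ε ^ (d.1 + d.2 - e))⁻¹ * (ε ^ (d.1 + d.2 - e) *
            E (r : Row).2 d (P2 (r : Row).1).1 (P2 (r : Row).1).2)
          = ((ε ^ (d.1 + d.2 - e))⁻¹ * ε ^ (d.1 + d.2 - e)) * (c d *
            E (r : Row).2 d (P2 (r : Row).1).1 (P2 (r : Row).1).2) := by ring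
        _ = _ := by rw [inv_mul_cancel₀ h7, one_mul]

end Pool.Agent.Helper94.UN
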