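import Pool.Agent.Helper43.UN.GoalsH
import Pool.Agent.Helper49.Gm.F2

/-! Packet XT of the project UN: from prices to regions (adapted from
`Pool/Agent/Helper55/UN/TrN.lean`). -/

set_option autoImplicit false

namespace Pool.Agent.Helper94.UN

open Finset
open Pool.Agent.Helper43.UN
open Pool.Agent.Lead.Sh
open Pool.Agent.Helper43.Gm (Pri)
open Pool.Agent.Helper18.SG (GoalA2)

theorem goalXT : GoalXT := by
  intro hA2 D R N ℓ m n π ε hD hpri hle
  have hrev := Pool.Agent.Helper43.Gm.PkF2.pri_rev _ _ _ _ _ _ hpri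
  refine hA2 R _ N _ _ _ _ hD.row hrev ?_
  intro y hy
  rw [hD.card y hy]
  exact hle (R - 1 - y) (by omega)

end Pool.Agent.Helper94.UN
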