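import Pool.Agent.Helper43.UN.GoalsH
import Pool.Agent.Helper56.UN.GNt
import Pool.Agent.Helper13.EW.Wr
import Pool.Agent.Helper2.EW.GT

/-!
# UN-XC: a triangle and one more cell
-/

set_option autoImplicit false

namespace Pool.Agent.Helper94.UN

open Finset
open Pool.Agent.Lead.Sh
open Pool.Agent.Helper18.EW (GoalCP GoalSw)
open Pool.Agent.Helper18.UW (OkU)
open Pool.Agent.Helper43.UN
open Pool.Agent.Helper56.UN (dg coeff_dg card_tri_succ)
open Helper18.Cusp (GoodFor)

theorem tri_split {e : ℕ} (he : 1 ≤ e) (p : ℕ × ℕ) :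
    p ∈ triD 0 e ↔ p ∈ triD 0 (e - 1) ∨ p.1 + p.2 = e := by
  rw [mem_triD, mem_triD]
  omega

/-- the space of the diagonal polynomials -/
theorem diagV {m : ℕ → ℕ} {e : ℕ} {s : Finset ℕ} {P : ℕ → ℂ × ℂ}
    (h : IndAt (triD 0 e) (rows m s) P) (hc : (triD 0 e).card ≤ (rows m s).card + e) :
    ∃ V : Submodule ℂ (Polynomial ℂ), Module.Finite ℂ V ∧ Module.finrank ℂ V ≤ e ∧
      ∀ f : ℕ × ℕ → ℂ, (∀ r ∈ rows m s, ∑ d ∈ triD 0 e,
        f d * E r.2 d (P r.1).1 (P r.1).2 = 0) → dg e f ∈ V := by
  classical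
  set D := triD 0 e with hD
  set R := rows m s with hR
  set M : Matrix R D ℂ := Matrix.of
    (fun (r : R) (d : D) => E r.1.2 d.1 (P r.1.1).1 (P r.1.1).2) with hM
  have hk := Pool.Agent.Helper2.EW.ker_dim D R P h
  set K := LinearMap.ker (Matrix.toLin' M) with hK
  set Ψ : (D → ℂ) →ₗ[ℂ] Polynomial ℂ :=
    { toFun := fun f => dg e (fun d => if h : d ∈ D then f ⟨d, h⟩ else 0)
      map_add' := by
        intro f g
        ext j
        rw [Polynomial.coeff_add, coeff_dg, coeff_dg, coeff_dg]
        by_cases hj : j ≤ e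
        · rw [if_pos hj, if_pos hj, if_pos hj]
          by_cases h1 : ((j, e - j) : ℕ × ℕ) ∈ D
          · rw [dif_pos h1, dif_pos h1, dif_pos h1, Pi.add_apply]
          · rw [dif_neg h1, dif_neg h1, dif_neg h1, add_zero]
        · rw [if_neg hj, if_neg hj, if_neg hj, add_zero]
      map_smul' := by
        intro a f
        ext j
        rw [RingHom.id_apply, Polynomial.coeff_smul, coeff_dg, coeff_dg]
        by_cases hj : j ≤ e
        · rw [if_pos hj, if_pos hj]
          by_cases h1 : ((j, e - j) : ℕ × ℕ) ∈ D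
          · rw [dif_pos h1, dif_pos h1, Pi.smul_apply]
          · rw [dif_neg h1, dif_neg h1, smul_zero]
        · rw [if_neg hj, if_neg hj, smul_zero] } with hΨ
  refine ⟨K.map Ψ, inferInstance, ?_, ?_⟩
  · refine (Submodule.finrank_map_le _ _).trans ?_
    omega
  · intro f hf
    refine ⟨fun d => f d, ?_, ?_⟩
    · rw [SetLike.mem_coe, hK, LinearMap.mem_ker, Matrix.toLin'_apply]
      funext r
      rw [Matrix.mulVec, dotProduct, Pi.zero_apply]
      refine Eq.trans ?_ (hf r.1 r.2)
      rw [← sum_coe_sort D]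
      apply sum_congr rfl
      intro d _
      rw [hM, Matrix.of_apply, mul_comm]
    · show dg e (fun d => if h : d ∈ D then f d else 0) = dg e f
      ext j
      rw [coeff_dg, coeff_dg]
      by_cases hj : j ≤ e
      · rw [if_pos hj, if_pos hj, dif_pos]
        rw [hD, mem_triD]
        simp only
        omega
      · rw [if_neg hj, if_neg hj]

/-- the main case -/
theorem inj_corner (hCP : GoalCP) (hSw : GoalSw) (hGNs : GoalGNs) {m : ℕ → ℕ} {e : ℕ}
    {s : Finset ℕ} (he : 1 ≤ e) (h1 : Ind (triD 0 e) (rows m s))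
    (h2 : Inj (triD 0 (e - 1)) (rows m s)) (hc : (triD 0 e).card ≤ (rows m s).card + e) :
    Inj (insert (0, e) (triD 0 (e - 1))) (rows m s) := by
  classical
  obtain ⟨P, hP1, hP2⟩ := hCP.1 _ _ _ _ h1 h2
  obtain ⟨V, hVfin, hV, hVm⟩ := diagV hP1 hc
  obtain ⟨t, ht⟩ := Pool.Agent.Helper13.EW.goalWr e V hVfin hV
  set t0 : ℂ := -t with ht0
  have hnot : (Polynomial.X + Polynomial.C t0) ^ e ∉ V := by
    intro h
    have e1 : (Polynomial.X + Polynomial.C t0 : Polynomial ℂ) = Polynomial.X - Polynomial.C t := by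
      rw [ht0, Polynomial.C_neg, sub_eq_add_neg]
    have h3 := ht _ h (by rw [e1])
    exact pow_ne_zero e (Polynomial.X_add_C_ne_zero t0) h3
  -- the other corner
  have hD' : Inj (insert (e, 0) (triD 0 (e - 1))) (rows m s) := by
    refine ⟨fun k => ((P k).1 + t0 * (P k).2, (P k).2), ?_⟩
    intro c hcz
    have hsub : insert (e, 0) (triD 0 (e - 1)) ⊆ triD 0 e := by
      intro p hp
      rw [mem_insert] at hp
      rw [tri_split he]
      rcases hp with rfl | hp
      · right; simp
      · left; exact hp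
    set c0 : ℕ × ℕ → ℂ := fun d => if d ∈ insert (e, 0) (triD 0 (e - 1)) then c d else 0 with hc0
    have hc0z : ∀ r ∈ rows m s, ∑ d ∈ triD 0 e,
        c0 d * E r.2 d (1 * (P r.1).1 + t0 * (P r.1).2) (P r.1).2 = 0 := by
      intro r hr
      rw [← hcz r hr, one_mul]
      symm
      apply sum_subset_zero_on_sdiff hsub
      · intro d hd
        rw [hc0, mem_sdiff] at *
        simp only
        rw [if_neg hd.2, zero_mul]
      · intro d hd
        rw [hc0]
        simp only
        rw [if_pos hd]
    obtain ⟨c', g1, g2, g3⟩ := hGNs m e s t0 1 P c0 one_ne_zero hc0z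
    have g2' : dg e c' = (dg e c0).comp (Polynomial.C 1 * Polynomial.X + Polynomial.C t0) := g2
    have hdg : dg e c0 = Polynomial.C (c0 (e, 0)) * Polynomial.X ^ e := by
      ext j
      rw [coeff_dg, Polynomial.coeff_C_mul, Polynomial.coeff_X_pow]
      by_cases hj : j = e
      · subst hj
        rw [if_pos le_rfl, if_pos rfl, mul_one, Nat.sub_self]
      · rw [if_neg hj, mul_zero]
        by_cases hj2 : j ≤ e
        · rw [if_pos hj2, hc0]
          simp only
          rw [if_neg]
          rw [mem_insert, mem_triD, Prod.mk.injEq]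
          simp only
          omega
        · rw [if_neg hj2]
    have hin := hVm c' g1
    rw [g2', hdg, Polynomial.mul_comp, Polynomial.C_comp, Polynomial.X_pow_comp, Polynomial.C_1,
      one_mul] at hin
    have hce : c0 (e, 0) = 0 := by
      by_contra hne
      apply hnot
      have := V.smul_mem (c0 (e, 0))⁻¹ hin
      rw [Polynomial.smul_eq_C_mul, ← mul_assoc, ← Polynomial.C_mul, inv_mul_cancel₀ hne,
        Polynomial.C_1, one_mul] at this
      exact this
    have hdg' : dg e c' = 0 := by
      rw [g2', hdg, hce, Polynomial.C_0, zero_mul, Polynomial.zero_comp]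
    have hdiag : ∀ p : ℕ × ℕ, p.1 + p.2 = e → c' p = 0 := by
      intro p hp
      have h3 : (dg e c').coeff p.1 = 0 := by rw [hdg', Polynomial.coeff_zero]
      rw [coeff_dg, if_pos (by omega)] at h3
      have h4 : p = (p.1, e - p.1) := Prod.ext rfl (by simp only; omega)
      rw [h4]
      exact h3
    have hc'0 : ∀ d ∈ triD 0 (e - 1), c' d = 0 := by
      apply hP2
      intro r hr
      rw [← g1 r hr]
      apply sum_subset
      · intro p hp
        rw [tri_split he]
        exact Or.inl hp
      · intro p hp hp'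
        rw [tri_split he] at hp
        rw [hdiag p (hp.resolve_left hp'), zero_mul]
    have hc'1 : ∀ d ∈ triD 0 e, c' d = 0 := by
      intro d hd
      rw [tri_split he] at hd
      rcases hd with hd | hd
      · exact hc'0 d hd
      · exact hdiag d hd
    intro d hd
    have h3 := g3 hc'1 d (hsub hd)
    rw [hc0] at h3
    simp only at h3
    rw [if_pos hd] at h3
    exact h3
  have h3 := hSw _ m s hD'
  have e1 : (insert (e, 0) (triD 0 (e - 1))).image (fun x : ℕ × ℕ => (x.2, x.1)) =
      insert (0, e) (triD 0 (e - 1)) := by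
    ext p
    rw [mem_image, mem_insert]
    constructor
    · rintro ⟨q, hq, rfl⟩
      rw [mem_insert] at hq
      rcases hq with rfl | hq
      · left; rfl
      · right
        rw [mem_triD] at hq ⊢
        simp only
        omega
    · rintro (rfl | hp)
      · exact ⟨(e, 0), mem_insert_self _ _, rfl⟩
      · refine ⟨(p.2, p.1), mem_insert_of_mem ?_, rfl⟩
        rw [mem_triD] at hp ⊢
        simp only
        omega
  rw [e1] at h3
  exact h3

/-- XC -/
theorem goalXC : GoalXC := by
  intro hCP hSw hGNs e m s he ho1 ho2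
  classical
  have hnm : ((0, e) : ℕ × ℕ) ∉ triD 0 (e - 1) := by
    rw [mem_triD]
    simp only
    omega
  have hcD : (insert (0, e) (triD 0 (e - 1))).card = (triD 0 (e - 1)).card + 1 :=
    card_insert_of_notMem hnm
  have hc3 := card_tri_succ he
  have hcr : (rows m s).card = ∑ k ∈ s, (m k + 1).choose 2 := card_rows m s
  have hsub1 : triD 0 (e - 1) ⊆ insert (0, e) (triD 0 (e - 1)) := subset_insert _ _
  have hsub2 : insert (0, e) (triD 0 (e - 1)) ⊆ triD 0 e := by
    intro p hp
    rw [mem_insert] at hp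
    rw [tri_split he]
    rcases hp with rfl | hp
    · right; simp
    · left; exact hp
  rcases Nat.lt_or_ge (triD 0 (e - 1)).card (∑ k ∈ s, (m k + 1).choose 2) with hlt | hge
  · have hInj : Inj (insert (0, e) (triD 0 (e - 1))) (rows m s) := by
      rcases ho1 with ⟨a1, a2⟩ | ⟨a1, a2⟩
      · rcases ho2 with ⟨b1, b2⟩ | ⟨b1, b2⟩
        · omega
        · apply inj_corner hCP hSw hGNs he a2 b2
          omega
      · exact a2.mono hsub2 subset_rfl
    refine ⟨fun _ => hInj, ?_⟩
    intro hle
    obtain ⟨P, hP⟩ := hInj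
    exact ⟨P, hP.ind (by omega)⟩
  · refine ⟨fun h => by omega, fun _ => ?_⟩
    have hI : Ind (triD 0 (e - 1)) (rows m s) := by
      rcases ho2 with ⟨b1, b2⟩ | ⟨b1, b2⟩
      · exact b2
      · obtain ⟨P, hP⟩ := b2
        exact ⟨P, hP.ind (by omega)⟩
    exact hI.mono hsub1 subset_rfl

end Pool.Agent.Helper94.UN
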